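import Pool.Agent.Lib.MP_6bc78b_nt.MS.GL.Iface
import Pool.Agent.Lib.MP_6bc78b_nt.MS.P4.H30.Zfac

/-! Project MS, Part GL, module SEP: two thirds of the zeros of every slice are isolated. -/

set_option autoImplicit false

open Complex Filter Topology MeasureTheory ArithmeticFunction

namespace Pool.Agent.Lib.MP_6bc78b_nt.MS.GL.H78

open Pool.Agent.Lib.MP_6bc78b_nt Pool.Agent.Lib.MP_6bc78b_nt.LL Pool.Agent.Lib.MP_6bc78b_nt.MS
  Pool.Agent.Lib.MP_6bc78b_nt.MS.P1 Pool.Agent.Lib.MP_6bc78b_nt.MS.QZ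
  Pool.Agent.Lib.MP_6bc78b_nt.MS.GL

/-- The multiplicity vanishes away from the zeros. -/
lemma mz_zero {γ : ℝ} (h : riemannZeta (1 / 2 + γ * I) ≠ 0) : mz γ = 0 := by
  rw [P4.H30.mz_eq]
  exact P4.H30.zfac.2.2.2.1 γ (fun h2 => h ((P4.H30.hardyZ_zero_iff γ).1 h2))

/-- `nC` is a natural number, at least the multiplicity of the centre. -/
lemma nC_nat {c T γ : ℝ} (hc : 0 ≤ c) (hT : 1 < T) :
    ∃ n : ℕ, nC c T γ = n ∧ mz γ ≤ n := by
  have hL : 0 < Real.log T := Real.log_pos hT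
  have hfin : {γ' : ℝ | |γ' - γ| ≤ c / Real.log T ∧
      riemannZeta (1 / 2 + γ' * I) = 0}.Finite := by
    refine (H11.zeros_in_compact_finite (|γ| + c / Real.log T)).subset ?_
    rintro γ' ⟨h1, h2⟩
    refine ⟨?_, h2⟩
    have h3 : |γ'| ≤ |γ' - γ| + |γ| := by
      have := abs_add_le (γ' - γ) γ
      simpa using this
    linarith
  set S : Finset ℝ := hfin.toFinset with hS
  have hsum : nC c T γ = ∑ γ' ∈ S, (mz γ' : ℝ) := by
    unfold nC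
    apply finsum_mem_eq_sum_of_inter_support_eq
    ext x
    simp only [Set.mem_inter_iff, Function.mem_support, hS, Set.Finite.coe_toFinset]
    constructor
    · rintro ⟨h1, h2⟩
      refine ⟨⟨h1, ?_⟩, h2⟩
      by_contra h3
      exact h2 (by rw [mz_zero h3]; simp)
    · rintro ⟨⟨h1, _⟩, h2⟩
      exact ⟨h1, h2⟩
  refine ⟨∑ γ' ∈ S, mz γ', by rw [hsum]; push_cast; rfl, ?_⟩
  by_cases hz : riemannZeta (1 / 2 + γ * I) = 0
  · have hmem : γ ∈ S := by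
      rw [hS, Set.Finite.mem_toFinset]
      refine ⟨?_, hz⟩
      rw [sub_self, abs_zero]
      positivity
    exact Finset.single_le_sum (f := fun γ' => mz γ') (fun _ _ => Nat.zero_le _) hmem
  · rw [mz_zero hz]; exact Nat.zero_le _

/-- A difference of two tails. -/
lemma slice_sum (T a b : ℝ) (hab : a < b) (f : ℝ → ℝ) :
    ∑ᶠ γ ∈ {γ | γ ∈ zset T ∧ a < X0 T γ ∧ X0 T γ ≤ b}, f γ =
      ∑ᶠ γ ∈ {γ | γ ∈ zset T ∧ a < X0 T γ}, f γ - ∑ᶠ γ ∈ {γ | γ ∈ zset T ∧ b < X0 T γ}, f γ := by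
  have hfin : (zset T).Finite := P4.H30.zfac.2.2.2.2.2.2 T
  have hu : {γ | γ ∈ zset T ∧ a < X0 T γ} =
      {γ | γ ∈ zset T ∧ a < X0 T γ ∧ X0 T γ ≤ b} ∪ {γ | γ ∈ zset T ∧ b < X0 T γ} := by
    ext x
    simp only [Set.mem_ofPred_eq, Set.mem_union]
    constructor
    · rintro ⟨h1, h2⟩
      rcases le_or_gt (X0 T x) b with h | h
      · exact Or.inl ⟨h1, h2, h⟩
      · exact Or.inr ⟨h1, h⟩
    · rintro (⟨h1, h2, _⟩ | ⟨h1, h2⟩)
      · exact ⟨h1, h2⟩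
      · exact ⟨h1, hab.trans h2⟩
  rw [hu, finsum_mem_union, add_sub_cancel_right]
  · rw [Set.disjoint_left]
    rintro x ⟨_, _, h1⟩ ⟨_, h2⟩
    exact absurd h2 (not_lt.2 h1)
  · exact hfin.subset fun x hx => hx.1
  · exact hfin.subset fun x hx => hx.1

/-- The pointwise inequality, summed over a slice. -/
lemma slice_ineq (T a b c lam C : ℝ) (hT : 1 < T) (hc : 0 < c) (hc1 : c < 1)
    (hW : ∀ γ ∈ zset T, (1 - c ^ 2) * nC c T γ ≤ WM lam C T γ) :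
    2 * ∑ᶠ γ ∈ {γ | γ ∈ zset T ∧ a < X0 T γ ∧ X0 T γ ≤ b}, (mz γ : ℝ) * wt T γ -
      (1 / (1 - c ^ 2)) * ∑ᶠ γ ∈ {γ | γ ∈ zset T ∧ a < X0 T γ ∧ X0 T γ ≤ b},
        (mz γ : ℝ) * wt T γ * WM lam C T γ ≤
    ∑ᶠ γ ∈ {γ | γ ∈ zset T ∧ a < X0 T γ ∧ X0 T γ ≤ b ∧ nC c T γ = 1}, wt T γ := by
  classical
  have hfin : (zset T).Finite := P4.H30.zfac.2.2.2.2.2.2 T
  have hA : {γ | γ ∈ zset T ∧ a < X0 T γ ∧ X0 T γ ≤ b}.Finite := hfin.subset fun x hx => hx.1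
  have hB : {γ | γ ∈ zset T ∧ a < X0 T γ ∧ X0 T γ ≤ b ∧ nC c T γ = 1}.Finite :=
    hfin.subset fun x hx => hx.1
  set A : Finset ℝ := hA.toFinset with hAd
  have h1 : ∀ f : ℝ → ℝ, ∑ᶠ γ ∈ {γ | γ ∈ zset T ∧ a < X0 T γ ∧ X0 T γ ≤ b}, f γ =
      ∑ γ ∈ A, f γ := fun f => finsum_mem_eq_finite_toFinset_sum f hA
  have h2 : ∑ᶠ γ ∈ {γ | γ ∈ zset T ∧ a < X0 T γ ∧ X0 T γ ≤ b ∧ nC c T γ = 1}, wt T γ =
      ∑ γ ∈ A, if nC c T γ = 1 then wt T γ else 0 := by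
    rw [finsum_mem_eq_finite_toFinset_sum _ hB, ← Finset.sum_filter]
    apply Finset.sum_congr ?_ (fun _ _ => rfl)
    ext x
    simp only [hAd, Finset.mem_filter, Set.Finite.mem_toFinset, Set.mem_ofPred_eq]
    tauto
  rw [h1, h1, h2, Finset.mul_sum, Finset.mul_sum, ← Finset.sum_sub_distrib]
  have hc2 : 0 < 1 - c ^ 2 := by
    have : c ^ 2 < 1 := by
      have := mul_lt_mul'' hc1 hc1 hc.le hc.le
      rw [sq]; linarith
    linarith
  apply Finset.sum_le_sum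
  intro γ hγ
  rw [hAd, Set.Finite.mem_toFinset] at hγ
  have hw : 0 ≤ wt T γ := by unfold wt; positivity
  have hWγ := hW γ hγ.1
  obtain ⟨n, hn, hmn⟩ := nC_nat (c := c) (T := T) (γ := γ) hc.le hT
  have hm1 : 1 ≤ mz γ := P4.H30.zfac.2.2.1 γ hγ.1.2.2
  have hm0 : (0 : ℝ) ≤ mz γ := Nat.cast_nonneg _
  have hnW : (n : ℝ) ≤ (1 / (1 - c ^ 2)) * WM lam C T γ := by
    rw [hn] at hWγ
    rw [one_div, ← div_eq_inv_mul, le_div_iff₀ hc2]
    linarith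
  have key : 2 * ((mz γ : ℝ) * wt T γ) - 1 / (1 - c ^ 2) * ((mz γ : ℝ) * wt T γ * WM lam C T γ) ≤
      (mz γ : ℝ) * wt T γ * (2 - n) := by
    have h5 := mul_le_mul_of_nonneg_left hnW (mul_nonneg hm0 hw)
    have h6 : 1 / (1 - c ^ 2) * ((mz γ : ℝ) * wt T γ * WM lam C T γ) =
        (mz γ : ℝ) * wt T γ * (1 / (1 - c ^ 2) * WM lam C T γ) := by ring
    rw [h6]
    linarith
  refine key.trans ?_
  by_cases hn1 : n = 1
  · have hmz : mz γ = 1 := by omega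
    rw [if_pos (by rw [hn, hn1]; simp), hn1, hmz]
    simp
    linarith
  · rw [if_neg (by rw [hn]; exact_mod_cast hn1)]
    have h2n : 2 ≤ n := by omega
    have h2r : (2 : ℝ) ≤ n := by exact_mod_cast h2n
    have := mul_nonneg (mul_nonneg hm0 hw) (sub_nonneg.2 h2r)
    linarith

/-- The choice of the parameters. -/
lemma choice (q ε : ℝ) (hε : 0 < ε) : ∃ t : ℝ, 0 < t ∧ t < 1 ∧
    2 / 3 * q - ε ≤ (2 - (1 / (1 - t) + (1 - t) / 3) / (1 - t ^ 2)) * q := by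
  have hcont : ContinuousAt
      (fun t : ℝ => (2 - (1 / (1 - t) + (1 - t) / 3) / (1 - t ^ 2)) * q) 0 := by
    have h1 : ContinuousAt (fun t : ℝ => 1 - t) 0 := by fun_prop
    have h2 : ContinuousAt (fun t : ℝ => 1 - t ^ 2) 0 := by fun_prop
    exact (continuousAt_const.sub (((continuousAt_const.div h1 (by norm_num)).add
      (h1.div_const 3)).div h2 (by norm_num))).mul continuousAt_const
  have h0 : (fun t : ℝ => (2 - (1 / (1 - t) + (1 - t) / 3) / (1 - t ^ 2)) * q) 0 =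
      2 / 3 * q := by norm_num
  have hev := hcont.eventually (lt_mem_nhds (a := 2 / 3 * q - ε) (by rw [h0]; linarith))
  obtain ⟨δ, hδ, hball⟩ := Metric.eventually_nhds_iff.1 hev
  refine ⟨min (δ / 2) (1 / 2), by positivity, ?_, ?_⟩
  · exact (min_le_right _ _).trans_lt (by norm_num)
  · have := hball (y := min (δ / 2) (1 / 2)) (by
      rw [dist_zero_right, Real.norm_eq_abs, abs_of_pos (by positivity)]
      exact (min_le_left _ _).trans_lt (by linarith))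
    exact this.le

theorem sep (h1 : SliStatement) (h2 : LitStatement) : SepStatement := by
  intro a b ε hab hε
  set q : ℝ := Qf a - Qf b with hq
  obtain ⟨t, ht0, ht1, hch⟩ := choice q (ε / 2) (by linarith)
  refine ⟨t, ht0, ht1, ?_⟩
  have ht2 : 0 < 1 - t ^ 2 := by
    have : t ^ 2 < 1 := by
      have := mul_lt_mul'' ht1 ht1 ht0.le ht0.le
      rw [sq]; linarith
    linarith
  obtain ⟨C, hC, hWM, hdist⟩ := h1 (1 - t) (by linarith) (by linarith)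
  set ρ : ℝ := 1 / (1 - t ^ 2) with hρ
  have hρ0 : 0 < ρ := by rw [hρ]; positivity
  set e1 : ℝ := ε / (2 * (4 + 2 * ρ)) with he1
  have he0 : 0 < e1 := by rw [he1]; positivity
  have hee : e1 * (4 + 2 * ρ) = ε / 2 := by
    rw [he1]; field_simp
  filter_upwards [hWM, hdist a e1 he0, hdist b e1 he0, h2 a e1 he0, h2 b e1 he0,
    eventually_gt_atTop (3 : ℝ)] with T hW ha hb ha' hb' hT
  have hT1 : 1 < T := by linarith
  have hL : 0 < Real.log T := Real.log_pos hT1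
  have hD : 0 < DD T := by unfold DD; positivity
  have hG : 0 < cG T * Real.log T := by unfold cG; positivity
  set G : ℝ := cG T * Real.log T with hGd
  have hineq := slice_ineq T a b t (1 - t) C hT1 ht0 ht1
    (fun γ hγ => hW γ hγ t ht0.le ht1.le)
  rw [slice_sum T a b hab, slice_sum T a b hab] at hineq
  have ha2 : |∑ᶠ γ ∈ {γ | γ ∈ zset T ∧ a < X0 T γ}, (mz γ : ℝ) * wt T γ * WM (1 - t) C T γ -
      (1 / (1 - t) + (1 - t) / 3) * Qf a * G| ≤ e1 * G := ha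
  have hb2 : |∑ᶠ γ ∈ {γ | γ ∈ zset T ∧ b < X0 T γ}, (mz γ : ℝ) * wt T γ * WM (1 - t) C T γ -
      (1 / (1 - t) + (1 - t) / 3) * Qf b * G| ≤ e1 * G := hb
  have ha3 : |∑ᶠ γ ∈ {γ | γ ∈ zset T ∧ a < X0 T γ}, (mz γ : ℝ) * wt T γ - Qf a * G| ≤
      e1 * G := ha'
  have hb3 : |∑ᶠ γ ∈ {γ | γ ∈ zset T ∧ b < X0 T γ}, (mz γ : ℝ) * wt T γ - Qf b * G| ≤
      e1 * G := hb'
  clear ha hb ha' hb'
  rw [abs_le] at ha2 hb2 ha3 hb3
  have hS : (Qf a - Qf b) * G - 2 * e1 * G ≤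
      ∑ᶠ γ ∈ {γ | γ ∈ zset T ∧ a < X0 T γ}, (mz γ : ℝ) * wt T γ -
      ∑ᶠ γ ∈ {γ | γ ∈ zset T ∧ b < X0 T γ}, (mz γ : ℝ) * wt T γ := by
    linarith [ha3.1, hb3.2]
  have hWs : ∑ᶠ γ ∈ {γ | γ ∈ zset T ∧ a < X0 T γ}, (mz γ : ℝ) * wt T γ * WM (1 - t) C T γ -
      ∑ᶠ γ ∈ {γ | γ ∈ zset T ∧ b < X0 T γ}, (mz γ : ℝ) * wt T γ * WM (1 - t) C T γ ≤
      (1 / (1 - t) + (1 - t) / 3) * (Qf a - Qf b) * G + 2 * e1 * G := by
    linarith [ha2.2, hb2.1]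
  have hWs2 := mul_le_mul_of_nonneg_left hWs hρ0.le
  rw [← hq] at hS hWs2
  have hch2 := mul_le_mul_of_nonneg_right hch hG.le
  have hid : (2 - (1 / (1 - t) + (1 - t) / 3) / (1 - t ^ 2)) * q * G =
      2 * (q * G) - ρ * ((1 / (1 - t) + (1 - t) / 3) * q * G) := by
    rw [hρ]; ring
  rw [hid] at hch2
  have he2 : e1 * (4 + 2 * ρ) * G = ε / 2 * G := by rw [hee]
  have hfin : 2 * (q * G - 2 * e1 * G) -
      ρ * ((1 / (1 - t) + (1 - t) / 3) * q * G + 2 * e1 * G) ≤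
      ∑ᶠ γ ∈ {γ | γ ∈ zset T ∧ a < X0 T γ ∧ X0 T γ ≤ b ∧ nC t T γ = 1}, wt T γ := by
    refine le_trans ?_ hineq
    linarith
  refine le_trans ?_ hfin
  have : 2 * (q * G - 2 * e1 * G) -
      ρ * ((1 / (1 - t) + (1 - t) / 3) * q * G + 2 * e1 * G) =
      2 * (q * G) - ρ * ((1 / (1 - t) + (1 - t) / 3) * q * G) - e1 * (4 + 2 * ρ) * G := by ring
  rw [this, he2]
  linarith

end Pool.Agent.Lib.MP_6bc78b_nt.MS.GL.H78
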